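import Pool.Agent.L0h87.LE.Stm

/-!
# Powers of three near powers of two
-/

set_option autoImplicit false

namespace Pool.Agent.L0h28.LE

theorem RHO : Pool.Agent.L0h87.LE.RHO := by
  intro q η hq hη
  obtain ⟨n, hn⟩ := exists_nat_gt (2 / η)
  have hn0 : (0 : ℝ) < n := lt_trans (by positivity) hn
  have hn1 : 0 < n := by exact_mod_cast hn0
  have hl2 : 0 < Real.log 2 := Real.log_pos (by norm_num)
  have hl2' : Real.log 2 ≤ 1 := by
    have := Real.log_two_lt_d9
    linarith
  have hl3 : 0 < Real.log 3 := Real.log_pos (by norm_num)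
  obtain ⟨k, hk, -, hkn⟩ := Real.exists_nat_abs_mul_sub_round_le (q * Real.log 3 / Real.log 2) hn1
  set ξ : ℝ := q * Real.log 3 / Real.log 2 with hξ
  have hq' : (0 : ℝ) < q := by exact_mod_cast hq
  have hk' : (0 : ℝ) < k := by exact_mod_cast hk
  have hξ0 : 0 < ξ := by positivity
  have hkξ : 0 < k * ξ := by positivity
  have hle : 1 / ((n : ℝ) + 1) < 1 := by
    rw [div_lt_one (by positivity)]
    linarith
  have ha0 : 0 ≤ round (k * ξ) := by
    have h1 := (abs_lt.mp (lt_of_le_of_lt hkn hle)).2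
    have h2 : (-1 : ℝ) < (round (k * ξ) : ℤ) := by linarith
    have h3 : (-1 : ℤ) < round (k * ξ) := by exact_mod_cast h2
    omega
  obtain ⟨a, ha⟩ := Int.eq_ofNat_of_zero_le ha0
  have ha' : ((round (k * ξ) : ℤ) : ℝ) = a := by
    rw [ha]
    simp
  rw [ha'] at hkn
  have hrw : (3 : ℝ) ^ (q * k) / 2 ^ a = Real.exp (Real.log 2 * (k * ξ - a)) := by
    have h1 : Real.log 2 * (k * ξ - a) = ((q * k : ℕ) : ℝ) * Real.log 3 - (a : ℝ) * Real.log 2 := by
      rw [hξ]
      push_cast
      field_simp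
    rw [h1, Real.exp_sub, mul_comm _ (Real.log 3), mul_comm _ (Real.log 2),
      ← Real.rpow_def_of_pos (by norm_num), ← Real.rpow_def_of_pos (by norm_num),
      Real.rpow_natCast, Real.rpow_natCast]
  have hx : |Real.log 2 * (k * ξ - a)| ≤ 1 / ((n : ℝ) + 1) := by
    rw [abs_mul, abs_of_pos hl2]
    calc Real.log 2 * |k * ξ - a| ≤ 1 * |k * ξ - a| := by
          apply mul_le_mul_of_nonneg_right hl2' (abs_nonneg _)
      _ ≤ _ := by rw [one_mul]; exact hkn
  refine ⟨a, k, hk, ?_, ?_⟩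
  · rw [hrw]
    refine (Real.abs_exp_sub_one_le (hx.trans hle.le)).trans ?_
    have h2 : 2 / η < (n : ℝ) + 1 := by linarith
    have h3 : 2 * (1 / ((n : ℝ) + 1)) ≤ η := by
      rw [mul_one_div, div_le_iff₀ (by positivity)]
      rw [div_lt_iff₀ hη] at h2
      linarith
    linarith
  · intro h
    rw [div_eq_one_iff_eq (by positivity)] at h
    have h1 : (3 : ℕ) ^ (q * k) = 2 ^ a := by exact_mod_cast h
    have h2 : Odd ((3 : ℕ) ^ (q * k)) := Odd.pow (by decide)
    rcases Nat.eq_zero_or_pos a with h3 | h3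
    · rw [h3, pow_zero] at h1
      have h4 : q * k ≠ 0 := by positivity
      have h5 := Nat.one_lt_pow h4 (by norm_num : 1 < 3)
      omega
    · rw [h1] at h2
      have h4 : Even ((2 : ℕ) ^ a) := (Nat.even_pow.mpr ⟨by decide, h3.ne'⟩)
      exact (Nat.not_even_iff_odd.mpr h2) h4

end Pool.Agent.L0h28.LE
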